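import Pool.Agent.Lib_MP_1dfcde_lc.Key

open scoped Ordinal Cardinal

namespace Pool.Agent.BlockMad

variable {F : Type} [Field F]

/-- the speed function of a block sequence -/
noncomputable def speed (y : ℕ → (ℕ →₀ F)) (p : ℕ) : ℕ :=
  (y (p + (p + 1) ^ 2)).support.sup id + 1

theorem low_speed_of_block {y : ℕ → (ℕ →₀ F)} (hy : IsBlockSeq y) {p l : ℕ}
    (hl : l < p + (p + 1) ^ 2) : y l ∈ low F (speed y p) := by
  refine low_mono ?_ (hy.low hl)
  refine (Finset.le_sup (f := id) (fst_mem (hy.1 _))).trans (Nat.le_succ _)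

/-- among the `(p+1)^2` vectors `y p, ..., ` one is outside all `X i + low p`, `i ≤ n`. -/
theorem exists_good_vector {y : ℕ → (ℕ →₀ F)} (hy : IsBlockSeq y)
    {X : ℕ → Submodule F (ℕ →₀ F)} (hX : ∀ i, AlmostDisj (Submodule.span F (Set.range y)) (X i))
    (n : ℕ) : ∃ p0 : ℕ, ∀ p, p0 ≤ p → ∃ l, p ≤ l ∧ l < p + (p + 1) ^ 2 ∧
      ∀ i ≤ n, y l ∉ X i ⊔ low F p := by
  classical
  let Y := Submodule.span F (Set.range y)
  let c : ℕ := ∑ i ∈ Finset.range (n + 1), Module.finrank F (Y ⊓ X i : Submodule F (ℕ →₀ F))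
  have hc : ∀ i ≤ n, Module.finrank F (Y ⊓ X i : Submodule F (ℕ →₀ F)) ≤ c := fun i hi =>
    Finset.single_le_sum (f := fun i => Module.finrank F (Y ⊓ X i : Submodule F (ℕ →₀ F)))
      (fun _ _ => Nat.zero_le _) (Finset.mem_range.2 (Nat.lt_succ_of_le hi))
  refine ⟨(n + 1) * (c + 1), fun p hp => ?_⟩
  by_contra hcon
  push Not at hcon
  -- bad sets
  let I : Finset ℕ := Finset.Ico p (p + (p + 1) ^ 2)
  let B : ℕ → Finset ℕ := fun i => I.filter (fun l => y l ∈ X i ⊔ low F p)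
  have hcard : ∀ i ≤ n, (B i).card ≤ c + p := by
    intro i hi
    let W : Submodule F (ℕ →₀ F) := Submodule.span F (Set.range (fun l : B i => y l))
    have hli : LinearIndependent F (fun l : B i => y l) :=
      hy.linearIndependent.comp _ Subtype.val_injective
    have hfdW : FiniteDimensional F W := FiniteDimensional.span_of_finite F (Set.finite_range _)
    have h1 : Module.finrank F W = (B i).card := by
      rw [finrank_span_eq_card hli]
      simp
    have h2 : W ≤ X i ⊔ low F p := by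
      rw [Submodule.span_le]
      rintro _ ⟨l, rfl⟩
      exact (Finset.mem_filter.1 l.2).2
    have h3 := finrank_le_inf_add h2
    have h4 : Module.finrank F (W ⊓ X i : Submodule F (ℕ →₀ F)) ≤
        Module.finrank F (Y ⊓ X i : Submodule F (ℕ →₀ F)) := by
      have : FiniteDimensional F (Y ⊓ X i : Submodule F (ℕ →₀ F)) := hX i
      apply Submodule.finrank_mono
      refine inf_le_inf_right _ ?_
      rw [Submodule.span_le]
      rintro _ ⟨l, rfl⟩
      exact Submodule.subset_span ⟨l, rfl⟩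
    have h5 := hc i hi
    omega
  have hsub : I ⊆ (Finset.range (n + 1)).biUnion B := by
    intro l hl
    obtain ⟨i, hi, hi'⟩ := hcon l (Finset.mem_Ico.1 hl).1 (Finset.mem_Ico.1 hl).2
    exact Finset.mem_biUnion.2 ⟨i, Finset.mem_range.2 (Nat.lt_succ_of_le hi),
      Finset.mem_filter.2 ⟨hl, hi'⟩⟩
  have h1 : I.card ≤ (n + 1) * (c + p) := by
    calc I.card ≤ _ := Finset.card_le_card hsub
      _ ≤ (Finset.range (n + 1)).card * (c + p) := Finset.card_biUnion_le_card_mul _ _ _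
          (fun i hi => hcard i (Nat.le_of_lt_succ (Finset.mem_range.1 hi)))
      _ = _ := by rw [Finset.card_range]
  have h2 : I.card = (p + 1) ^ 2 := by simp [I]
  rw [h2] at h1
  have h3 : (n + 1) * (c + p) < (n + 1) * ((c + 1) * (p + 1)) := by
    apply Nat.mul_lt_mul_of_pos_left _ (Nat.succ_pos n)
    nlinarith
  have h4 : (n + 1) * ((c + 1) * (p + 1)) ≤ (p + 1) ^ 2 := by
    calc (n + 1) * ((c + 1) * (p + 1)) = ((n + 1) * (c + 1)) * (p + 1) := by ring
      _ ≤ (p + 1) * (p + 1) := Nat.mul_le_mul_right _ (by omega)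
      _ = _ := by ring
  omega

theorem exists_challenge {h : ℕ → ℕ} (hlt : ∀ p, p < h p)
    {y : ℕ → (ℕ →₀ F)} (hy : IsBlockSeq y)
    {X : ℕ → Submodule F (ℕ →₀ F)} (hX : ∀ i, AlmostDisj (Submodule.span F (Set.range y)) (X i))
    (hcap : {p | speed y p ≤ h p}.Infinite) (n : ℕ) :
    ∃ A, Valid h X n A ∧ ∀ q ∈ A, q.2 ∈ Submodule.span F (Set.range y) := by
  classical
  obtain ⟨p0, hp0⟩ := exists_good_vector hy hX n
  -- one more proposal beyond any bound
  have hone : ∀ b : ℕ, ∃ q : ℕ × (ℕ →₀ F), b ≤ q.1 ∧ Good h X n q ∧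
      q.2 ∈ Submodule.span F (Set.range y) := by
    intro b
    obtain ⟨p, hp1, hp2⟩ := hcap.exists_gt (max b p0)
    obtain ⟨l, hl1, hl2, hl3⟩ := hp0 p ((le_max_right _ _).trans hp2.le)
    refine ⟨(p, y l), (le_max_left _ _).trans hp2.le, ⟨hy.high hl1, ?_, hl3⟩,
      Submodule.subset_span ⟨l, rfl⟩⟩
    exact low_mono hp1 (low_speed_of_block hy hl2)
  have hind : ∀ m : ℕ, ∃ A : Finset (ℕ × (ℕ →₀ F)), A.card = m ∧ (∀ q ∈ A, Good h X n q) ∧
      (∀ q ∈ A, ∀ q' ∈ A, q ≠ q' → h (h q.1) ≤ q'.1 ∨ h (h q'.1) ≤ q.1) ∧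
      ∀ q ∈ A, q.2 ∈ Submodule.span F (Set.range y) := by
    intro m
    induction m with
    | zero => exact ⟨∅, rfl, by simp, by simp, by simp⟩
    | succ m ih =>
      obtain ⟨A, hA1, hA2, hA3, hA4⟩ := ih
      obtain ⟨q, hq1, hq2, hq3⟩ := hone (A.sup fun q => h (h q.1))
      have hfar : ∀ q' ∈ A, h (h q'.1) ≤ q.1 := fun q' hq' =>
        (Finset.le_sup (f := fun q : ℕ × (ℕ →₀ F) => h (h q.1)) hq').trans hq1
      have hnot : q ∉ A := by
        intro hqA
        have h1 := hfar q hqA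
        have h2 := hlt q.1
        have h3 := hlt (h q.1)
        omega
      refine ⟨insert q A, ?_, ?_, ?_, ?_⟩
      · rw [Finset.card_insert_of_notMem hnot, hA1]
      · intro q' hq'
        rcases Finset.mem_insert.1 hq' with rfl | hq'
        · exact hq2
        · exact hA2 _ hq'
      · intro a ha b hb hab
        rcases Finset.mem_insert.1 ha with ha' | ha'
        · rcases Finset.mem_insert.1 hb with hb' | hb'
          · exact absurd (ha'.trans hb'.symm) hab
          · rw [ha']; exact Or.inr (hfar b hb')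
        · rcases Finset.mem_insert.1 hb with hb' | hb'
          · rw [hb']; exact Or.inl (hfar a ha')
          · exact hA3 a ha' b hb' hab
      · intro q' hq'
        rcases Finset.mem_insert.1 hq' with rfl | hq'
        · exact hq3
        · exact hA4 _ hq'
  obtain ⟨A, hA1, hA2, hA3, hA4⟩ := hind (n + 1)
  exact ⟨A, ⟨hA1, hA2, hA3⟩, hA4⟩

/-- every infinite-dimensional subspace contains a block sequence, moreover avoiding
prescribed finite-dimensional data. -/
theorem exists_block_avoid (Z : ℕ → Submodule F (ℕ →₀ F))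
    (U : ℕ → ℕ → Submodule F (ℕ →₀ F))
    (h : ∀ n a, ¬ FiniteDimensional F (Z n ⊓ high F a : Submodule F (ℕ →₀ F)))
    (hU : ∀ n a, FiniteDimensional F (U n a)) :
    ∃ x : ℕ → (ℕ →₀ F), IsBlockSeq x ∧ ∃ a : ℕ → ℕ, (∀ k l, l < k → x l ∈ low F (a k)) ∧
      ∀ n, x n ∈ Z n ∧ x n ∉ U n (a n) := by
  classical
  have hex : ∀ n a, ∃ v : ℕ →₀ F, v ≠ 0 ∧ v ∈ Z n ∧ v ∈ high F a ∧ v ∉ U n a := by
    intro n a
    by_contra hcon
    push Not at hcon
    apply h n a
    have hle : (Z n ⊓ high F a : Submodule F (ℕ →₀ F)) ≤ U n a := by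
      rintro v ⟨hv1, hv2⟩
      by_cases hv0 : v = 0
      · rw [hv0]; exact Submodule.zero_mem _
      · exact hcon v hv0 hv1 hv2
    have := hU n a
    exact Submodule.finiteDimensional_of_le hle
  obtain ⟨f, hf⟩ := exists_wf_rec (ι := ℕ) (α := ℕ × (ℕ →₀ F)) (r := fun a b : ℕ => a < b)
    Nat.lt_wfRel.wf
    (fun n hist q => (∀ k (hk : k < n), (hist k hk).2 ∈ low F q.1) ∧
      q.2 ≠ 0 ∧ q.2 ∈ Z n ∧ q.2 ∈ high F q.1 ∧ q.2 ∉ U n q.1) (by
    intro n hist
    have hb : ∃ a, ∀ k (hk : k < n), (hist k hk).2 ∈ low F a := by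
      choose b hb using fun v : ℕ →₀ F => exists_low v
      refine ⟨Finset.sup (Finset.univ : Finset (Fin n)) (fun k => b (hist k.1 k.2).2), ?_⟩
      intro k hk
      refine low_mono ?_ (hb _)
      exact Finset.le_sup (f := fun k : Fin n => b (hist k.1 k.2).2) (Finset.mem_univ ⟨k, hk⟩)
    obtain ⟨a, ha⟩ := hb
    obtain ⟨v, hv⟩ := hex n a
    exact ⟨(a, v), ha, hv⟩)
  refine ⟨fun n => (f n).2, ⟨fun n => (hf n).2.1, ?_⟩, fun n => (f n).1, ?_, ?_⟩
  · intro n i hi j hj
    exact (mem_low.1 ((hf (n+1)).1 n (Nat.lt_succ_self n)) i hi).trans_le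
      (mem_high.1 ((hf (n+1)).2.2.2.1) j hj)
  · intro k l hlk
    exact (hf k).1 l hlk
  · intro n
    exact ⟨(hf n).2.2.1, (hf n).2.2.2.2⟩

theorem exists_block_le {Y : Submodule F (ℕ →₀ F)} (hY : ¬ FiniteDimensional F Y) :
    ∃ x : ℕ → (ℕ →₀ F), IsBlockSeq x ∧ Submodule.span F (Set.range x) ≤ Y := by
  obtain ⟨x, hx, _, _, h2⟩ := exists_block_avoid (fun _ => Y) (fun _ _ => ⊥)
    (fun _ a => not_fd_inf_high a hY) (fun _ _ => inferInstance)
  refine ⟨x, hx, ?_⟩
  rw [Submodule.span_le]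
  rintro _ ⟨n, rfl⟩
  exact (h2 n).1

/-- a countable almost disjoint family is not maximal -/
theorem exists_block_ad {X : ℕ → Submodule F (ℕ →₀ F)} (hX : ∀ i, ¬ FiniteDimensional F (X i))
    (hXX : ∀ i j, i ≠ j → AlmostDisj (X i) (X j)) :
    ∃ x : ℕ → (ℕ →₀ F), IsBlockSeq x ∧
      ∀ i, AlmostDisj (Submodule.span F (Set.range x)) (X i) := by
  classical
  obtain ⟨x, hx, a, h1, h2⟩ := exists_block_avoid (fun n => X (n + 1))
    (fun n a => ⨆ i : Fin (n + 1), ((X i ⊔ low F a) ⊓ X (n + 1)))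
    (fun n a => not_fd_inf_high a (hX (n + 1))) (by
      intro n a
      have : ∀ i : Fin (n + 1), FiniteDimensional F
          ((X i ⊔ low F a) ⊓ X (n + 1) : Submodule F (ℕ →₀ F)) := fun i =>
        fd_of_inf_of_sup (hXX _ _ (by have := i.2; omega))
      infer_instance)
  refine ⟨x, hx, fun i => fd_of_tail (K := i) (a := a) h1 ?_⟩
  intro k hk hmem
  apply (h2 k).2
  refine Submodule.mem_iSup_of_mem (⟨i, by omega⟩ : Fin (k + 1)) ?_
  exact ⟨hmem, (h2 k).1⟩

/-- a countable base family -/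
noncomputable def baseSeq (F : Type) [Field F] (n k : ℕ) : ℕ →₀ F :=
  Finsupp.single (Nat.pair n k) 1

theorem baseSeq_block (n : ℕ) : IsBlockSeq (baseSeq F n) := by
  refine ⟨fun k => by simp [baseSeq], fun k i hi j hj => ?_⟩
  rw [baseSeq, Finsupp.support_single _ one_ne_zero, Finset.mem_singleton] at hi hj
  subst hi; subst hj
  exact Nat.pair_lt_pair_right _ (Nat.lt_succ_self k)

theorem baseSeq_ad {n m : ℕ} (h : n ≠ m) :
    AlmostDisj (Submodule.span F (Set.range (baseSeq F n)))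
      (Submodule.span F (Set.range (baseSeq F m))) := by
  have hle : ∀ n, Submodule.span F (Set.range (baseSeq F n)) ≤
      Finsupp.supported F F (Set.range (Nat.pair n)) := by
    intro n
    rw [Submodule.span_le]
    rintro _ ⟨k, rfl⟩
    exact Finsupp.single_mem_supported _ _ ⟨k, rfl⟩
  have hd : Disjoint (Set.range (Nat.pair n)) (Set.range (Nat.pair m)) := by
    rw [Set.disjoint_left]
    rintro _ ⟨k, rfl⟩ ⟨l, hl⟩
    exact h (Nat.pair_eq_pair.1 hl).1.symm
  have hd2 := Finsupp.disjoint_supported_supported (R := F) (M := F) hd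
  have : (Submodule.span F (Set.range (baseSeq F n)) ⊓
      Submodule.span F (Set.range (baseSeq F m)) : Submodule F (ℕ →₀ F)) = ⊥ := by
    rw [eq_bot_iff]
    exact (inf_le_inf (hle n) (hle m)).trans hd2.le_bot
  rw [AlmostDisj, this]
  infer_instance

end Pool.Agent.BlockMad
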