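import Mathlib

/-!
Definitions for MP_1dfcde_lc: the parametrized diamond principle for `(ω^ω, =^∞)`,
block subspaces, mad families of block subspaces and the cardinal `𝔞_vec,F`.
-/

open scoped Ordinal Cardinal

namespace Pool.Agent.BlockMad

/-- `C ⊆ ω₁` is closed and unbounded in `ω₁`. -/
def IsClubOmegaOne (C : Set Ordinal.{0}) : Prop :=
  (∀ α ∈ C, α < ω₁) ∧
  (∀ α < ω₁, ∃ β ∈ C, α < β) ∧
  (∀ δ < ω₁, δ ≠ 0 → (∀ α < δ, ∃ β ∈ C, α < β ∧ β < δ) → δ ∈ C)

/-- `S ⊆ ω₁` is stationary: it meets every closed unbounded subset of `ω₁`. -/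
def IsStationaryOmegaOne (S : Set Ordinal.{0}) : Prop :=
  (∀ α ∈ S, α < ω₁) ∧ ∀ C, IsClubOmegaOne C → (S ∩ C).Nonempty

/-- `f =^∞ g`: the two elements of the Baire space agree at infinitely many arguments. -/
def InfEq (f g : ℕ → ℕ) : Prop := {n | f n = g n}.Infinite

/-- The parametrized diamond principle `◇(ω^ω, =^∞)` of Moore, Hrusak and Dzamonja.
`Φ δ` is the restriction of `Φ : 2^{<ω₁} → ω^ω` to `2^δ`. -/
def ParametrizedDiamond : Prop :=
  ∀ Φ : (δ : Ordinal.{0}) → (Set.Iio δ → Bool) → (ℕ → ℕ),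
    (∀ δ < ω₁, @Measurable _ _ (borel (Set.Iio δ → Bool)) (borel (ℕ → ℕ)) (Φ δ)) →
    ∃ g : Ordinal.{0} → (ℕ → ℕ), ∀ f : Ordinal.{0} → Bool,
      IsStationaryOmegaOne {δ | δ < ω₁ ∧ InfEq (Φ δ (fun a : Set.Iio δ => f a)) (g δ)}

section Vector

variable {F : Type} [Field F]

/-- `x < y` for vectors of `E = ℕ →₀ F`: the support of `x` lies strictly below that of `y`. -/
def BlockLT (x y : ℕ →₀ F) : Prop := ∀ i ∈ x.support, ∀ j ∈ y.support, i < j

/-- An infinite block sequence: nonzero vectors `x 0 < x 1 < ...`. -/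
def IsBlockSeq (x : ℕ → (ℕ →₀ F)) : Prop :=
  (∀ n, x n ≠ 0) ∧ ∀ n, BlockLT (x n) (x (n + 1))

/-- A block subspace: the span of an infinite block sequence. -/
def IsBlockSubspace (X : Submodule F (ℕ →₀ F)) : Prop :=
  ∃ x : ℕ → (ℕ →₀ F), IsBlockSeq x ∧ X = Submodule.span F (Set.range x)

/-- Two subspaces are almost disjoint if their intersection is finite-dimensional. -/
def AlmostDisj (X Y : Submodule F (ℕ →₀ F)) : Prop :=
  FiniteDimensional F (X ⊓ Y : Submodule F (ℕ →₀ F))

/-- A family of pairwise almost disjoint block subspaces. -/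
def IsADBlockFamily (A : Set (Submodule F (ℕ →₀ F))) : Prop :=
  (∀ X ∈ A, IsBlockSubspace X) ∧ A.Pairwise AlmostDisj

/-- A mad family of block subspaces: a family of pairwise almost disjoint block subspaces not
properly contained in another such family. -/
def IsMadBlockFamily (A : Set (Submodule F (ℕ →₀ F))) : Prop :=
  IsADBlockFamily A ∧ ∀ B, IsADBlockFamily B → A ⊆ B → B = A

/-- A family of pairwise almost disjoint infinite-dimensional subspaces. -/
def IsADFamily (A : Set (Submodule F (ℕ →₀ F))) : Prop :=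
  (∀ X ∈ A, ¬ FiniteDimensional F X) ∧ A.Pairwise AlmostDisj

/-- A maximal family of pairwise almost disjoint (arbitrary infinite-dimensional) subspaces. -/
def IsMadFamily (A : Set (Submodule F (ℕ →₀ F))) : Prop :=
  IsADFamily A ∧ ∀ B, IsADFamily B → A ⊆ B → B = A

variable (F) in
/-- The cardinal `𝔞_vec,F`: the least cardinality of an infinite mad family of subspaces. -/
noncomputable def aVec : Cardinal.{0} :=
  sInf {κ | ∃ A : Set (Submodule F (ℕ →₀ F)), A.Infinite ∧ IsMadFamily A ∧ #A = κ}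

end Vector

end Pool.Agent.BlockMad
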