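import Pool.Agent.Lib_MP_1dfcde_lc.Defs

open scoped Ordinal Cardinal

namespace Pool.Agent.BlockMad

theorem countable_Iio {δ : Ordinal.{0}} (h : δ < ω₁) : Countable (Set.Iio δ) := by
  rw [← Cardinal.mk_le_aleph0_iff, Cardinal.mk_Iio_ordinal]
  rw [Cardinal.lift_le_aleph0]
  have h1 : δ.card < ℵ₁ := by
    rw [← Cardinal.lt_ord]
    simpa using h
  rwa [← Cardinal.succ_aleph0, Order.lt_succ_iff] at h1

/-- closure points -/
def closedPts : Set Ordinal.{0} := {δ | δ < ω₁ ∧ ∀ α < δ, ω * (α + 1) ≤ δ}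

theorem isClub_closedPts_inter (γ : Ordinal.{0}) (hγ : γ < ω₁) :
    IsClubOmegaOne {δ | δ ∈ closedPts ∧ γ < δ} := by
  refine ⟨fun α hα => hα.1.1, ?_, ?_⟩
  · intro α hα
    have hω : (ω : Ordinal.{0}) < ω₁ := Ordinal.omega0_lt_omega_one
    have hmul : ∀ β : Ordinal.{0}, β < ω₁ → ω * (β + 1) < ω₁ := by
      intro β hβ
      have h1 : β + 1 < ω₁ := by
        have := (Cardinal.isSuccLimit_omega 1).add_one_lt hβ
        exact this
      exact (Ordinal.isPrincipal_mul_omega 1) hω h1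
    let s : ℕ → Ordinal.{0} := fun n => Nat.rec (max α γ) (fun _ b => ω * (b + 1)) n
    have hs0 : s 0 = max α γ := rfl
    have hss : ∀ n, s (n + 1) = ω * (s n + 1) := fun n => rfl
    have hlt : ∀ n, s n < ω₁ := by
      intro n
      induction n with
      | zero => rw [hs0]; exact max_lt hα hγ
      | succ n ih => rw [hss]; exact hmul _ ih
    have hsup : (⨆ n, s n) < ω₁ := Ordinal.iSup_lt_omega_one hlt
    have hstep : ∀ n, s n < s (n + 1) := by
      intro n
      rw [hss]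
      calc s n < s n + 1 := by exact lt_add_one _
        _ ≤ ω * (s n + 1) := Ordinal.le_mul_right _ Ordinal.omega0_pos
    refine ⟨⨆ n, s n, ⟨⟨hsup, ?_⟩, ?_⟩, ?_⟩
    · intro β hβ
      obtain ⟨n, hn⟩ := (Ordinal.lt_iSup_iff).1 hβ
      calc ω * (β + 1) ≤ ω * (s n + 1) := by gcongr
        _ = s (n + 1) := (hss n).symm
        _ ≤ _ := Ordinal.le_iSup s (n + 1)
    · calc γ ≤ s 0 := by rw [hs0]; exact le_max_right _ _
        _ < s 1 := hstep 0
        _ ≤ _ := Ordinal.le_iSup s 1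
    · calc α ≤ s 0 := by rw [hs0]; exact le_max_left _ _
        _ < s 1 := hstep 0
        _ ≤ _ := Ordinal.le_iSup s 1
  · intro δ hδ hδ0 h
    refine ⟨⟨hδ, ?_⟩, ?_⟩
    · intro α hα
      obtain ⟨β, hβ, h1, h2⟩ := h α hα
      exact (hβ.1.2 α h1).trans h2.le
    · obtain ⟨β, hβ, h1, h2⟩ := h 0 (pos_iff_ne_zero.2 hδ0)
      exact hβ.2.trans h2

theorem diamond_gen {Z : Type} [MeasurableSpace Z] [StandardBorelSpace Z] (hZ : ¬ Countable Z)
    (hD : ParametrizedDiamond)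
    (Φ : (δ : Ordinal.{0}) → (Set.Iio δ → Z) → (ℕ → ℕ))
    (hΦ : ∀ δ < ω₁, Measurable (Φ δ)) :
    ∃ g : Ordinal.{0} → (ℕ → ℕ), ∀ f : Ordinal.{0} → Z, ∀ γ < ω₁,
      ∃ δ, γ < δ ∧ δ < ω₁ ∧ InfEq (Φ δ (fun a : Set.Iio δ => f a)) (g δ) := by
  classical
  let e : Z ≃ᵐ (ℕ → Bool) := PolishSpace.measurableEquivNatBoolOfNotCountable hZ
  let dec : (δ : Ordinal.{0}) → (Set.Iio δ → Bool) → (Set.Iio δ → Z) := fun δ u a =>
    e.symm (fun n => if h : ω * a.1 + n < δ then u ⟨ω * a.1 + n, h⟩ else false)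
  obtain ⟨g, hg⟩ := hD (fun δ u => Φ δ (dec δ u)) (by
    intro δ hδ
    have := countable_Iio hδ
    have h1 : (borel (Set.Iio δ → Bool)) = MeasurableSpace.pi :=
      (BorelSpace.measurable_eq (α := Set.Iio δ → Bool)).symm
    have h2 : (borel (ℕ → ℕ)) = MeasurableSpace.pi :=
      (BorelSpace.measurable_eq (α := ℕ → ℕ)).symm
    rw [h1, h2]
    refine (hΦ δ hδ).comp ?_
    refine measurable_pi_iff.2 fun a => ?_
    refine e.symm.measurable.comp ?_
    refine measurable_pi_iff.2 fun n => ?_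
    by_cases h : ω * a.1 + n < δ
    · simp only [h, dite_true]
      exact measurable_pi_apply _
    · simp only [h, dite_false]
      exact measurable_const)
  refine ⟨g, fun f γ hγ => ?_⟩
  -- encode `f`
  have hnat : ∀ β : Ordinal.{0}, ∃ n : ℕ, β % ω = n := fun β =>
    Ordinal.lt_omega0.1 (Ordinal.mod_lt _ Ordinal.omega0_ne_zero)
  choose r hr using hnat
  let fh : Ordinal.{0} → Bool := fun β => e (f (β / ω)) (r β)
  obtain ⟨δ, hδS, hδC⟩ := (hg fh).2 _ (isClub_closedPts_inter γ hγ)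
  refine ⟨δ, hδC.2, hδS.1, ?_⟩
  have : dec δ (fun a : Set.Iio δ => fh a) = fun a : Set.Iio δ => f a := by
    funext a
    simp only [dec]
    rw [MeasurableEquiv.symm_apply_eq]
    funext n
    have hlt : ω * a.1 + n < δ := by
      refine lt_of_lt_of_le ?_ (hδC.1.2 a.1 a.2)
      rw [mul_add, mul_one]
      gcongr
      exact Ordinal.natCast_lt_omega0 n
    rw [dif_pos hlt]
    simp only [fh]
    have hdiv : (ω * a.1 + n) / ω = a.1 := by
      rw [Ordinal.mul_add_div _ Ordinal.omega0_ne_zero,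
        Ordinal.div_eq_zero_of_lt (Ordinal.natCast_lt_omega0 n), add_zero]
    have hmod : r (ω * a.1 + n) = n := by
      have h1 := hr (ω * a.1 + n)
      rw [Ordinal.mul_add_mod_self, Ordinal.mod_eq_of_lt (Ordinal.natCast_lt_omega0 n)] at h1
      exact_mod_cast h1.symm
    rw [hdiv, hmod]
  have h2 := hδS.2
  simp only [this] at h2
  exact h2

end Pool.Agent.BlockMad
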