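import Pool.Agent.Lib_MP_1dfcde_lc.Lin

open scoped Ordinal Cardinal

namespace Pool.Agent.BlockMad

/-- dependent choice along a well-founded relation -/
theorem exists_wf_rec {ι α : Type*} {r : ι → ι → Prop} (wf : WellFounded r)
    (P : (i : ι) → ((j : ι) → r j i → α) → α → Prop) (h : ∀ i hist, ∃ a, P i hist a) :
    ∃ f : ι → α, ∀ i, P i (fun j _ => f j) (f i) := by
  choose G hG using h
  refine ⟨wf.fix G, fun i => ?_⟩
  have h1 := wf.fix_eq G i
  rw [h1]
  exact hG i _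

variable {F : Type} [Field F]

/-- proposals `(p, y)`: a vector `y` supported in `[p, h p)` which is not in `X i + low p`
for `i ≤ n`. -/
def Good (h : ℕ → ℕ) (X : ℕ → Submodule F (ℕ →₀ F)) (n : ℕ) (q : ℕ × (ℕ →₀ F)) : Prop :=
  q.2 ∈ high F q.1 ∧ q.2 ∈ low F (h q.1) ∧ ∀ i ≤ n, q.2 ∉ X i ⊔ low F q.1

/-- valid list of `n+1` good proposals, pairwise far apart -/
def Valid (h : ℕ → ℕ) (X : ℕ → Submodule F (ℕ →₀ F)) (n : ℕ) (A : Finset (ℕ × (ℕ →₀ F))) : Prop :=
  A.card = n + 1 ∧ (∀ q ∈ A, Good h X n q) ∧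
    ∀ q ∈ A, ∀ q' ∈ A, q ≠ q' → h (h q.1) ≤ q'.1 ∨ h (h q'.1) ≤ q.1

/-- compatible proposals -/
def Compat (h : ℕ → ℕ) (q q' : ℕ × (ℕ →₀ F)) : Prop := h q.1 ≤ q'.1 ∨ h q'.1 ≤ q.1

theorem exists_sel {h : ℕ → ℕ} (hm : StrictMono h) (X : ℕ → Submodule F (ℕ →₀ F))
    (g : ℕ → Finset (ℕ × (ℕ →₀ F))) :
    ∃ sel : ℕ → ℕ × (ℕ →₀ F), ∀ n, Valid h X n (g n) →
      sel n ∈ g n ∧ ∀ k < n, Compat h (sel n) (sel k) := by
  classical
  refine exists_wf_rec (r := fun a b : ℕ => a < b) Nat.lt_wfRel.wf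
    (fun n hist a => Valid h X n (g n) → a ∈ g n ∧ ∀ k (hk : k < n), Compat h a (hist k hk)) ?_
  intro n hist
  by_cases hV : Valid h X n (g n)
  swap
  · exact ⟨(0, 0), fun hh => absurd hh hV⟩
  by_contra hcon
  push Not at hcon
  have hcon' : ∀ q ∈ g n, ∃ k : Fin n, ¬ Compat h q (hist k.1 k.2) := by
    intro q hq
    obtain ⟨_, h2⟩ := hcon q
    obtain ⟨k, hk, hk'⟩ := h2 hq
    exact ⟨⟨k, hk⟩, hk'⟩
  have : ∃ q ∈ g n, ∃ q' ∈ g n, q ≠ q' ∧ ∃ k : Fin n, ¬ Compat h q (hist k.1 k.2) ∧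
      ¬ Compat h q' (hist k.1 k.2) := by
    have hne : (g n).Nonempty := by rw [← Finset.card_pos, hV.1]; omega
    obtain ⟨q0, hq0⟩ := hne
    have : Nonempty (Fin n) := ⟨(hcon' q0 hq0).choose⟩
    choose! κ hκ using hcon'
    obtain ⟨q, hq, q', hq', hne, heq⟩ := Finset.exists_ne_map_eq_of_card_lt_of_maps_to
      (s := g n) (t := (Finset.univ : Finset (Fin n))) (f := κ)
      (by rw [hV.1]; simp) (fun _ _ => Finset.mem_univ _)
    exact ⟨q, hq, q', hq', hne, κ q, hκ q hq, by rw [heq]; exact hκ q' hq'⟩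
  obtain ⟨q, hq, q', hq', hne, k, hk, hk'⟩ := this
  -- symmetric argument
  have key : ∀ a b r : ℕ × (ℕ →₀ F), ¬ Compat h a r → ¬ Compat h b r → ¬ h (h a.1) ≤ b.1 := by
    intro a b r ha hb hab
    simp only [Compat, not_or, not_le] at ha hb
    have h1 : h r.1 < h (h a.1) := hm ha.1
    exact absurd (hb.2.trans (h1.trans_le hab)) (lt_irrefl _)
  rcases hV.2.2 q hq q' hq' hne with h1 | h1
  · exact key _ _ _ hk hk' h1
  · exact key _ _ _ hk' hk h1

theorem key_lemma {h : ℕ → ℕ} (hm : StrictMono h) (hlt : ∀ p, p < h p)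
    (X : ℕ → Submodule F (ℕ →₀ F)) (g : ℕ → Finset (ℕ × (ℕ →₀ F))) :
    ∃ x : ℕ → (ℕ →₀ F), (IsBlockSeq x ∨ x = 0) ∧
      (∀ i, AlmostDisj (Submodule.span F (Set.range x)) (X i)) ∧
      ∀ Y : Submodule F (ℕ →₀ F), {n | Valid h X n (g n) ∧ ∀ q ∈ g n, q.2 ∈ Y}.Infinite →
        ¬ AlmostDisj (Submodule.span F (Set.range x)) Y := by
  classical
  obtain ⟨sel, hsel⟩ := exists_sel hm X g
  let V : Set ℕ := {n | Valid h X n (g n)}
  by_cases hV : V.Infinite
  swap
  · refine ⟨0, Or.inr rfl, ?_, ?_⟩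
    · intro i
      have : (Submodule.span F (Set.range (0 : ℕ → (ℕ →₀ F)))) = ⊥ := by
        rw [Submodule.span_eq_bot]
        rintro _ ⟨k, rfl⟩
        rfl
      rw [this, AlmostDisj, bot_inf_eq]
      infer_instance
    · intro Y hY
      exact absurd (hY.mono fun n hn => hn.1) hV
  let P : ℕ → ℕ := fun n => (sel n).1
  have hPne : ∀ n ∈ V, ∀ k, k < n → P n ≠ P k := by
    intro n hn k hk heq
    have h1 := (hsel n hn).2 k hk
    simp only [Compat] at h1
    have h2 := hlt (sel n).1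
    have h3 := hlt (sel k).1
    have h4 : (sel n).1 = (sel k).1 := heq
    omega
  have hPinj : Set.InjOn P V := by
    intro a ha b hb hab
    rcases lt_trichotomy a b with h1 | h1 | h1
    · exact absurd hab.symm (hPne b hb a h1)
    · exact h1
    · exact absurd hab (hPne a ha b h1)
  have hcomp : ∀ a ∈ V, ∀ b ∈ V, P a < P b → h (P a) ≤ P b := by
    intro a ha b hb hab
    rcases lt_trichotomy a b with h1 | h1 | h1
    · rcases (hsel b hb).2 a h1 with h2 | h2
      · have := hlt (P b)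
        exact absurd (this.trans_le (h2.trans hab.le)) (lt_irrefl _)
      · exact h2
    · subst h1; exact absurd hab (lt_irrefl _)
    · rcases (hsel a ha).2 b h1 with h2 | h2
      · exact h2
      · have := hlt (P b)
        exact absurd (this.trans_le (h2.trans hab.le)) (lt_irrefl _)
  have hJ : (P '' V).Infinite := hV.image hPinj
  have hJ' : Infinite (P '' V) := hJ.to_subtype
  let J : ℕ → ℕ := fun k => Nat.Subtype.orderIsoOfNat (P '' V) k
  have hJmem : ∀ k, J k ∈ P '' V := fun k => (Nat.Subtype.orderIsoOfNat (P '' V) k).2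
  have hJmono : StrictMono J := fun a b hab =>
    (Nat.Subtype.orderIsoOfNat (P '' V)).strictMono hab
  have hJsurj : ∀ j ∈ P '' V, ∃ k, J k = j := by
    intro j hj
    obtain ⟨k, hk⟩ := (Nat.Subtype.orderIsoOfNat (P '' V)).surjective ⟨j, hj⟩
    exact ⟨k, by simp only [J, hk]⟩
  choose ν hνV hνP using hJmem
  let x : ℕ → (ℕ →₀ F) := fun k => (sel (ν k)).2
  have hgood : ∀ k, Good h X (ν k) (sel (ν k)) := fun k =>
    (hνV k).2.1 _ ((hsel (ν k) (hνV k)).1)
  have hhigh : ∀ k, x k ∈ high F (J k) := by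
    intro k
    have := (hgood k).1
    rwa [show (sel (ν k)).1 = J k from hνP k] at this
  have hlow : ∀ k, x k ∈ low F (h (J k)) := by
    intro k
    have := (hgood k).2.1
    rwa [show (sel (ν k)).1 = J k from hνP k] at this
  have hbad : ∀ k, ∀ i ≤ ν k, x k ∉ X i ⊔ low F (J k) := by
    intro k i hi
    have := (hgood k).2.2 i hi
    rwa [show (sel (ν k)).1 = J k from hνP k] at this
  have hstep : ∀ k l, l < k → h (J l) ≤ J k := by
    intro k l hlk
    have := hcomp (ν l) (hνV l) (ν k) (hνV k) (by rw [hνP, hνP]; exact hJmono hlk)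
    rwa [hνP, hνP] at this
  have hxlow : ∀ k l, l < k → x l ∈ low F (J k) := fun k l hlk =>
    low_mono (hstep k l hlk) (hlow l)
  have hxne : ∀ k, x k ≠ 0 := by
    intro k h0
    apply hbad k 0 (Nat.zero_le _)
    rw [h0]
    exact Submodule.zero_mem _
  have hblock : IsBlockSeq x := by
    refine ⟨hxne, fun k i hi j hj => ?_⟩
    exact (mem_low.1 (hxlow (k+1) k (Nat.lt_succ_self k)) i hi).trans_le
      (mem_high.1 (hhigh (k+1)) j hj)
  have hνinj : Function.Injective ν := by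
    intro a b hab
    apply hJmono.injective
    rw [← hνP a, ← hνP b, hab]
  refine ⟨x, Or.inl hblock, ?_, ?_⟩
  · intro i
    have hfin : {k | ν k < i}.Finite := by
      have : {k | ν k < i} = ν ⁻¹' (Set.Iio i) := rfl
      rw [this]
      exact (Set.finite_Iio i).preimage hνinj.injOn
    obtain ⟨K, hK⟩ := hfin.bddAbove
    refine fd_of_tail (K := K + 1) hxlow ?_
    intro k hk
    refine hbad k i ?_
    by_contra hcon
    have := hK (show k ∈ {k | ν k < i} from not_le.1 hcon)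
    omega
  · intro Y hY
    refine hblock.not_fd ?_
    -- infinitely many `k` with `x k ∈ Y`
    have hsub : {n | Valid h X n (g n) ∧ ∀ q ∈ g n, q.2 ∈ Y} ⊆ ν '' {k | x k ∈ Y} := by
      rintro n ⟨hn1, hn2⟩
      obtain ⟨k, hk⟩ := hJsurj (P n) ⟨n, hn1, rfl⟩
      have hνk : ν k = n := hPinj (hνV k) hn1 (by rw [hνP, hk])
      refine ⟨k, ?_, hνk⟩
      have := hn2 _ (hsel n hn1).1
      change (sel (ν k)).2 ∈ Y
      rw [hνk]
      exact this
    exact (hY.mono hsub).of_image ν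

end Pool.Agent.BlockMad
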