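import Pool.Agent.Lib_MP_1dfcde_lc.Defs

open scoped Ordinal Cardinal

namespace Pool.Agent.BlockMad

section Gen

variable {F V V' : Type} [Field F] [AddCommGroup V] [Module F V] [AddCommGroup V'] [Module F V']

/-- dimension counting -/
theorem gen_finrank_le_inf_add {W X L : Submodule F V} [FiniteDimensional F W]
    [FiniteDimensional F L] (h : W ≤ X ⊔ L) :
    Module.finrank F W ≤ Module.finrank F (W ⊓ X : Submodule F V) + Module.finrank F L := by
  let φ : W →ₗ[F] (V ⧸ X) := X.mkQ.comp W.subtype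
  have h1 := φ.finrank_range_add_finrank_ker
  have h2 : Module.finrank F (LinearMap.ker φ) = Module.finrank F
      (W ⊓ X : Submodule F V) := by
    have : LinearMap.ker φ = Submodule.comap W.subtype X := by
      rw [LinearMap.ker_comp, Submodule.ker_mkQ]
    rw [this, ← Submodule.finrank_map_subtype_eq, Submodule.map_comap_subtype]
  have h3 : Module.finrank F (LinearMap.range φ) ≤ Module.finrank F L := by
    have hle : LinearMap.range φ ≤ L.map X.mkQ := by
      rw [LinearMap.range_comp, Submodule.range_subtype]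
      refine (Submodule.map_mono h).trans ?_
      rw [Submodule.map_sup]
      simp
    calc Module.finrank F (LinearMap.range φ) ≤ Module.finrank F (L.map X.mkQ) :=
          Submodule.finrank_mono hle
      _ ≤ Module.finrank F L := Submodule.finrank_map_le _ _
  omega

theorem gen_fd_of_inf_of_sup {X Z L : Submodule F V} [FiniteDimensional F L]
    (h : FiniteDimensional F (X ⊓ Z : Submodule F V)) :
    FiniteDimensional F ((X ⊔ L) ⊓ Z : Submodule F V) := by
  have h1 : (((X ⊔ L) ⊓ Z).map X.mkQ).FG := by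
    have hle : ((X ⊔ L) ⊓ Z).map X.mkQ ≤ L.map X.mkQ := by
      refine (Submodule.map_mono inf_le_left).trans ?_
      rw [Submodule.map_sup]
      simp
    have : FiniteDimensional F (L.map X.mkQ) := inferInstance
    have h2 : FiniteDimensional F ((((X ⊔ L) ⊓ Z).map X.mkQ)) :=
      Submodule.finiteDimensional_of_le hle
    exact (Submodule.fg_top _).1 h2.1
  have h2 : (((X ⊔ L) ⊓ Z) ⊓ LinearMap.ker X.mkQ).FG := by
    rw [Submodule.ker_mkQ]
    have hle : ((X ⊔ L) ⊓ Z) ⊓ X ≤ X ⊓ Z := by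
      rintro v ⟨⟨_, hv2⟩, hv3⟩
      exact ⟨hv3, hv2⟩
    have h2 : FiniteDimensional F (((X ⊔ L) ⊓ Z) ⊓ X : Submodule F V) :=
      Submodule.finiteDimensional_of_le hle
    exact (Submodule.fg_top _).1 h2.1
  have := Submodule.fg_of_fg_map_of_fg_inf_ker X.mkQ h1 h2
  exact ⟨(Submodule.fg_top _).2 this⟩

theorem gen_fd_of_ker {X Y : Submodule F V} (f : V →ₗ[F] V') [FiniteDimensional F V']
    (hle : X ⊓ LinearMap.ker f ≤ Y) (hY : FiniteDimensional F Y) : FiniteDimensional F X := by
  have h1 : (X.map f).FG := by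
    have : FiniteDimensional F (X.map f) := inferInstance
    exact (Submodule.fg_top _).1 this.1
  have h2 : (X ⊓ LinearMap.ker f).FG := by
    have h2 : FiniteDimensional F (X ⊓ LinearMap.ker f : Submodule F V) :=
      Submodule.finiteDimensional_of_le hle
    exact (Submodule.fg_top _).1 h2.1
  have := Submodule.fg_of_fg_map_of_fg_inf_ker f h1 h2
  exact ⟨(Submodule.fg_top _).2 this⟩

end Gen

variable {F : Type} [Field F]

/-- vectors supported below `m` -/
def low (F : Type) [Field F] (m : ℕ) : Submodule F (ℕ →₀ F) := Finsupp.supported F F (Set.Iio m)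

/-- vectors supported from `m` on -/
def high (F : Type) [Field F] (m : ℕ) : Submodule F (ℕ →₀ F) := Finsupp.supported F F (Set.Ici m)

theorem mem_low {m : ℕ} {v : ℕ →₀ F} : v ∈ low F m ↔ ∀ i ∈ v.support, i < m := by
  rw [low, Finsupp.mem_supported]; rfl

theorem mem_high {m : ℕ} {v : ℕ →₀ F} : v ∈ high F m ↔ ∀ i ∈ v.support, m ≤ i := by
  rw [high, Finsupp.mem_supported]; rfl

theorem low_mono {m n : ℕ} (h : m ≤ n) : low F m ≤ low F n := by
  intro v hv
  rw [mem_low] at *
  exact fun i hi => (hv i hi).trans_le h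

instance fd_low (m : ℕ) : FiniteDimensional F (low F m) := by
  classical
  exact Module.Finite.equiv (Finsupp.supportedEquivFinsupp (R := F) (M := F) (Set.Iio m)).symm

theorem finrank_low (m : ℕ) : Module.finrank F (low F m) = m := by
  classical
  have := (Finsupp.supportedEquivFinsupp (R := F) (M := F) (Set.Iio m)).finrank_eq
  rw [low, this]
  simp

theorem exists_low (v : ℕ →₀ F) : ∃ m, v ∈ low F m := by
  refine ⟨v.support.sup id + 1, ?_⟩
  rw [mem_low]
  intro i hi
  exact Nat.lt_succ_of_le (Finset.le_sup (f := id) hi)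

/-- The key triangularity argument. -/
theorem supp_lt {x : ℕ → (ℕ →₀ F)} {a : ℕ → ℕ} {X : Submodule F (ℕ →₀ F)} {K : ℕ}
    (h1 : ∀ k l, l < k → x l ∈ low F (a k))
    (h2 : ∀ k, K ≤ k → x k ∉ X ⊔ low F (a k))
    (c : ℕ →₀ F) (hv : Finsupp.linearCombination F x c ∈ X) :
    ∀ k ∈ c.support, k < K := by
  classical
  by_contra hcon
  push Not at hcon
  obtain ⟨k0, hk0, hk0'⟩ := hcon
  have hne : c.support.Nonempty := ⟨k0, hk0⟩
  set k := c.support.max' hne with hk
  have hkm : k ∈ c.support := Finset.max'_mem _ _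
  have hkK : K ≤ k := hk0'.trans (Finset.le_max' _ _ hk0)
  apply h2 k hkK
  have hsum : Finsupp.linearCombination F x c
      = c k • x k + ∑ l ∈ c.support.erase k, c l • x l := by
    rw [Finsupp.linearCombination_apply, Finsupp.sum]
    exact (Finset.add_sum_erase c.support (fun l => c l • x l) hkm).symm
  have hlow : ∑ l ∈ c.support.erase k, c l • x l ∈ low F (a k) := by
    refine Submodule.sum_mem _ fun l hl => Submodule.smul_mem _ _ (h1 k l ?_)
    exact lt_of_le_of_ne (Finset.le_max' _ _ (Finset.mem_of_mem_erase hl))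
      (Finset.ne_of_mem_erase hl)
  have hck : c k ≠ 0 := Finsupp.mem_support_iff.1 hkm
  have h3 : c k • x k ∈ X ⊔ low F (a k) := by
    have : c k • x k = Finsupp.linearCombination F x c
        + -(∑ l ∈ c.support.erase k, c l • x l) := by
      rw [hsum]; abel
    rw [this]
    exact Submodule.add_mem_sup hv (Submodule.neg_mem _ hlow)
  have h4 := Submodule.smul_mem _ (c k)⁻¹ h3
  rwa [smul_smul, inv_mul_cancel₀ hck, one_smul] at h4

theorem fd_of_tail {x : ℕ → (ℕ →₀ F)} {a : ℕ → ℕ} {X : Submodule F (ℕ →₀ F)} {K : ℕ}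
    (h1 : ∀ k l, l < k → x l ∈ low F (a k))
    (h2 : ∀ k, K ≤ k → x k ∉ X ⊔ low F (a k)) :
    AlmostDisj (Submodule.span F (Set.range x)) X := by
  have hle : Submodule.span F (Set.range x) ⊓ X ≤ low F (a K) := by
    rintro v ⟨hv1, hv2⟩
    obtain ⟨c, rfl⟩ := (Finsupp.mem_span_range_iff_exists_finsupp).1 hv1
    have h3 := supp_lt (K := K) h1 h2 c (by rwa [Finsupp.linearCombination_apply])
    refine Submodule.sum_mem _ fun l hl => Submodule.smul_mem _ _ (h1 K l (h3 l hl))
  exact Submodule.finiteDimensional_of_le hle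

theorem linearIndependent_of_tail {x : ℕ → (ℕ →₀ F)} {a : ℕ → ℕ}
    (h1 : ∀ k l, l < k → x l ∈ low F (a k))
    (h2 : ∀ k, x k ∉ low F (a k)) :
    LinearIndependent F x := by
  rw [linearIndependent_iff]
  intro c hc
  have := supp_lt (X := ⊥) (K := 0) h1 (by simpa using h2) c (by simpa using hc)
  rw [← Finsupp.support_eq_empty, Finset.eq_empty_iff_forall_notMem]
  intro k hk
  exact absurd (this k hk) (by omega)

/-- the first coordinate of a vector (junk for zero) -/
noncomputable def fst (v : ℕ →₀ F) : ℕ := sInf (v.support : Set ℕ)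

theorem fst_mem {v : ℕ →₀ F} (hv : v ≠ 0) : fst v ∈ v.support := by
  have : (v.support : Set ℕ).Nonempty := by
    simpa using Finsupp.support_nonempty_iff.2 hv
  exact_mod_cast Nat.sInf_mem this

theorem fst_le {v : ℕ →₀ F} {i : ℕ} (hi : i ∈ v.support) : fst v ≤ i :=
  Nat.sInf_le (by exact_mod_cast hi)

theorem IsBlockSeq.lt {x : ℕ → (ℕ →₀ F)} (hx : IsBlockSeq x) {k l : ℕ} (h : k < l) :
    ∀ i ∈ (x k).support, ∀ j ∈ (x l).support, i < j := by
  induction l, h using Nat.le_induction with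
  | base => exact hx.2 k
  | succ l hl ih =>
    intro i hi j hj
    exact (ih i hi _ (fst_mem (hx.1 l))).trans (hx.2 l _ (fst_mem (hx.1 l)) j hj)

theorem IsBlockSeq.low {x : ℕ → (ℕ →₀ F)} (hx : IsBlockSeq x) {k l : ℕ} (h : l < k) :
    x l ∈ low F (fst (x k)) := by
  rw [mem_low]
  exact fun i hi => hx.lt h i hi _ (fst_mem (hx.1 k))

theorem IsBlockSeq.notLow {x : ℕ → (ℕ →₀ F)} (hx : IsBlockSeq x) (k : ℕ) :
    x k ∉ Pool.Agent.BlockMad.low F (fst (x k)) := by
  rw [mem_low]
  intro h
  exact absurd (h _ (fst_mem (hx.1 k))) (lt_irrefl _)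

theorem IsBlockSeq.linearIndependent {x : ℕ → (ℕ →₀ F)} (hx : IsBlockSeq x) :
    LinearIndependent F x :=
  linearIndependent_of_tail (a := fun k => fst (x k)) (fun _ _ h => hx.low h) hx.notLow

theorem IsBlockSeq.le_fst {x : ℕ → (ℕ →₀ F)} (hx : IsBlockSeq x) (k : ℕ) : k ≤ fst (x k) := by
  induction k with
  | zero => exact Nat.zero_le _
  | succ k ih =>
    exact ih.trans_lt (hx.lt (Nat.lt_succ_self k) _ (fst_mem (hx.1 k)) _ (fst_mem (hx.1 (k+1))))

theorem IsBlockSeq.high {x : ℕ → (ℕ →₀ F)} (hx : IsBlockSeq x) {p k : ℕ} (h : p ≤ k) :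
    x k ∈ high F p := by
  rw [mem_high]
  exact fun i hi => h.trans ((hx.le_fst k).trans (fst_le hi))

theorem IsBlockSeq.not_fd {x : ℕ → (ℕ →₀ F)} (hx : IsBlockSeq x) {Y : Submodule F (ℕ →₀ F)}
    (h : {k | x k ∈ Y}.Infinite) : ¬ FiniteDimensional F
      (Submodule.span F (Set.range x) ⊓ Y : Submodule F (ℕ →₀ F)) := by
  intro hfd
  have := h.to_subtype
  let y : {k | x k ∈ Y} → (Submodule.span F (Set.range x) ⊓ Y : Submodule F (ℕ →₀ F)) :=
    fun k => ⟨x k, Submodule.subset_span ⟨k, rfl⟩, k.2⟩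
  have hli : LinearIndependent F y := by
    have h1 : LinearIndependent F (fun k : {k | x k ∈ Y} => x k) :=
      hx.linearIndependent.comp _ Subtype.val_injective
    exact LinearIndependent.of_comp
      (Submodule.subtype (Submodule.span F (Set.range x) ⊓ Y)) h1
  have := hli.finite
  exact not_finite {k | x k ∈ Y}

theorem IsBlockSeq.not_fd_span {x : ℕ → (ℕ →₀ F)} (hx : IsBlockSeq x) :
    ¬ FiniteDimensional F (Submodule.span F (Set.range x)) := by
  have := hx.not_fd (Y := ⊤) (by simpa using Set.infinite_univ)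
  rwa [inf_top_eq] at this

/-- dimension counting -/
theorem finrank_le_inf_add {W X : Submodule F (ℕ →₀ F)} [FiniteDimensional F W] {m : ℕ}
    (h : W ≤ X ⊔ low F m) :
    Module.finrank F W ≤ Module.finrank F (W ⊓ X : Submodule F (ℕ →₀ F)) + m := by
  have := gen_finrank_le_inf_add h
  rwa [finrank_low] at this

theorem fd_of_inf_of_sup {X Z : Submodule F (ℕ →₀ F)} {m : ℕ} (h : AlmostDisj X Z) :
    FiniteDimensional F ((X ⊔ low F m) ⊓ Z : Submodule F (ℕ →₀ F)) :=
  gen_fd_of_inf_of_sup h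

theorem not_fd_inf_high {X : Submodule F (ℕ →₀ F)} (m : ℕ) (h : ¬ FiniteDimensional F X) :
    ¬ FiniteDimensional F (X ⊓ high F m : Submodule F (ℕ →₀ F)) := by
  intro hfd
  apply h
  let f : (ℕ →₀ F) →ₗ[F] (Fin m → F) := LinearMap.pi fun i => Finsupp.lapply i.1
  refine gen_fd_of_ker f ?_ hfd
  rintro v ⟨hv1, hv2⟩
  refine ⟨hv1, ?_⟩
  have hv3 : f v = 0 := hv2
  have : v ∈ high F m := by
    rw [mem_high]
    intro i hi
    by_contra hcon
    have h4 : f v ⟨i, not_le.1 hcon⟩ = 0 := by rw [hv3]; rfl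
    exact (Finsupp.mem_support_iff.1 hi) h4
  exact this

end Pool.Agent.BlockMad
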