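import Pool.Agent.Lib_MP_1dfcde_lc.Meas

open scoped Ordinal Cardinal

namespace Pool.Agent.BlockMad

variable {F : Type} [Field F]

theorem AlmostDisj.symm {X Y : Submodule F (ℕ →₀ F)} (h : AlmostDisj X Y) : AlmostDisj Y X := by
  unfold AlmostDisj at *
  rwa [inf_comm]

theorem AlmostDisj.mono_left {X X' Y : Submodule F (ℕ →₀ F)} (h : AlmostDisj X Y) (hle : X' ≤ X) :
    AlmostDisj X' Y := by
  unfold AlmostDisj at *
  exact Submodule.finiteDimensional_of_le (inf_le_inf_right _ hle)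

theorem almostDisj_zero {Y : Submodule F (ℕ →₀ F)} :
    AlmostDisj Y (Submodule.span F (Set.range (0 : ℕ → (ℕ →₀ F)))) := by
  have : (Submodule.span F (Set.range (0 : ℕ → (ℕ →₀ F)))) = ⊥ := by
    rw [Submodule.span_eq_bot]
    rintro _ ⟨k, rfl⟩
    rfl
  rw [this, AlmostDisj, inf_bot_eq]
  infer_instance

/-- The unbounded family from the diamond. -/
theorem exists_unbounded (hD : ParametrizedDiamond) :
    ∃ h : Ordinal.{0} → ℕ → ℕ, (∀ δ, StrictMono (h δ)) ∧ (∀ δ p, p < h δ p) ∧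
      ∀ φ : ℕ → ℕ, ∃ α < ω₁, ∀ δ, α ≤ δ → δ < ω₁ → {p | φ p ≤ h δ p}.Infinite := by
  classical
  have hunc0 : #(ℕ → ℕ) = 𝔠 := by simp
  have hunc : ¬ Countable (ℕ → ℕ) := by
    intro h
    have := Cardinal.mk_le_aleph0_iff.2 h
    rw [hunc0] at this
    exact absurd this (not_le.2 Cardinal.aleph0_lt_continuum)
  obtain ⟨g, hg⟩ := diamond_gen (Z := ℕ → ℕ) hunc hD
    (fun δ z => if h : 0 < δ then z ⟨0, h⟩ else 0) (by
      intro δ _
      by_cases h : 0 < δ
      · simp only [h, dite_true]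
        exact measurable_pi_apply _
      · simp only [h, dite_false]
        exact measurable_const)
  have hcode : ∀ δ : Ordinal.{0}, ∃ G : ℕ → ℕ → ℕ, δ < ω₁ → ∀ α ≤ δ, ∃ i, G i = g α := by
    intro δ
    by_cases hδ : δ < ω₁
    · have hδ1 : δ + 1 < ω₁ := (Cardinal.isSuccLimit_omega 1).add_one_lt hδ
      have := countable_Iio hδ1
      have hne : Nonempty (Set.Iio (δ + 1)) := ⟨⟨0, lt_of_le_of_lt (zero_le) (lt_add_one δ)⟩⟩
      obtain ⟨e, he⟩ := exists_surjective_nat (Set.Iio (δ + 1))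
      refine ⟨fun i => g (e i), fun _ α hα => ?_⟩
      obtain ⟨i, hi⟩ := he ⟨α, lt_of_le_of_lt hα (lt_add_one δ)⟩
      exact ⟨i, by simp only [hi]⟩
    · exact ⟨fun _ _ => 0, fun h => absurd h hδ⟩
  choose G hG using hcode
  choose h h1 h2 h3 using fun δ => exists_dominating (G δ)
  refine ⟨h, h1, h2, fun φ => ?_⟩
  obtain ⟨α, h0α, hα, hinf⟩ := hg (fun _ => φ) 0 (Ordinal.omega_pos 1)
  refine ⟨α, hα, fun δ hαδ hδ => ?_⟩
  obtain ⟨i, hi⟩ := hG δ hδ α hαδ
  have h4 : ({n | φ n = g α n} \ Set.Iio i).Infinite := by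
    have : (if h : 0 < α then (fun _ => φ : Set.Iio α → ℕ → ℕ) ⟨0, h⟩ else 0) = φ := by
      simp only [h0α, dite_true]
    have hinf' : InfEq φ (g α) := by
      rw [← this]
      exact hinf
    exact Set.Infinite.sdiff hinf' (Set.finite_Iio i)
  refine h4.mono ?_
  rintro n ⟨hn1, hn2⟩
  have hn1' : φ n = g α n := hn1
  have hn2' : i ≤ n := not_lt.1 hn2
  change φ n ≤ h δ n
  rw [hn1', ← hi]
  exact h3 δ i n hn2'

section Main

open Classical in
/-- family enumerated at stage `δ` -/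
noncomputable def fam (ι : (δ : Ordinal.{0}) → Set.Iio δ → ℕ) (δ : Ordinal.{0})
    (w : Set.Iio δ → (ℕ → (ℕ →₀ F))) (i : ℕ) : ℕ → (ℕ →₀ F) :=
  if i % 2 = 0 then baseSeq F (i / 2)
  else if h : ∃ a : Set.Iio δ, ι δ a = i / 2 then w h.choose else 0

theorem fam_even (ι : (δ : Ordinal.{0}) → Set.Iio δ → ℕ) (δ : Ordinal.{0})
    (w : Set.Iio δ → (ℕ → (ℕ →₀ F))) (n : ℕ) : fam ι δ w (2 * n) = baseSeq F n := by
  unfold fam
  rw [if_pos (by omega)]
  congr 1
  omega

theorem fam_odd (ι : (δ : Ordinal.{0}) → Set.Iio δ → ℕ) (δ : Ordinal.{0})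
    (hι : Function.Injective (ι δ))
    (w : Set.Iio δ → (ℕ → (ℕ →₀ F))) (a : Set.Iio δ) : fam ι δ w (2 * ι δ a + 1) = w a := by
  unfold fam
  rw [if_neg (by omega)]
  have h : ∃ b : Set.Iio δ, ι δ b = (2 * ι δ a + 1) / 2 := ⟨a, by omega⟩
  rw [dif_pos h]
  congr 1
  apply hι
  rw [h.choose_spec]
  omega

theorem fam_cases (ι : (δ : Ordinal.{0}) → Set.Iio δ → ℕ) (δ : Ordinal.{0})
    (w : Set.Iio δ → (ℕ → (ℕ →₀ F))) (i : ℕ) :
    (∃ n, fam ι δ w i = baseSeq F n) ∨ (∃ a, fam ι δ w i = w a) ∨ fam ι δ w i = 0 := by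
  unfold fam
  by_cases h1 : i % 2 = 0
  · rw [if_pos h1]; exact Or.inl ⟨_, rfl⟩
  · rw [if_neg h1]
    by_cases h : ∃ a : Set.Iio δ, ι δ a = i / 2
    · rw [dif_pos h]; exact Or.inr (Or.inl ⟨_, rfl⟩)
    · rw [dif_neg h]; exact Or.inr (Or.inr rfl)

theorem main_construction [Countable F] (hD : ParametrizedDiamond) :
    ∃ x : Ordinal.{0} → ℕ → (ℕ →₀ F),
      (∀ δ < ω₁, IsBlockSeq (x δ) ∨ x δ = 0) ∧
      (∀ δ < ω₁, ∀ n, AlmostDisj (Submodule.span F (Set.range (x δ)))
        (Submodule.span F (Set.range (baseSeq F n)))) ∧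
      (∀ δ < ω₁, ∀ α < δ, AlmostDisj (Submodule.span F (Set.range (x δ)))
        (Submodule.span F (Set.range (x α)))) ∧
      ∀ y : ℕ → (ℕ →₀ F), IsBlockSeq y →
        (∀ n, AlmostDisj (Submodule.span F (Set.range y))
          (Submodule.span F (Set.range (baseSeq F n)))) →
        (∀ δ < ω₁, AlmostDisj (Submodule.span F (Set.range y))
          (Submodule.span F (Set.range (x δ)))) → False := by
  classical
  obtain ⟨h, hm, hlt, hunb⟩ := exists_unbounded hD
  -- codes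
  have hι : ∀ δ : Ordinal.{0}, ∃ j : Set.Iio δ → ℕ, δ < ω₁ → Function.Injective j := by
    intro δ
    by_cases hδ : δ < ω₁
    · have := countable_Iio hδ
      obtain ⟨j, hj⟩ := exists_injective_nat (Set.Iio δ)
      exact ⟨j, fun _ => hj⟩
    · exact ⟨fun _ => 0, fun h => absurd h hδ⟩
  choose ι hι using hι
  obtain ⟨dec, hdec⟩ := exists_surjective_nat (Finset (ℕ × (ℕ →₀ F)))
  -- challenges
  let Z := (ℕ → (ℕ →₀ F)) × (ℕ → (ℕ →₀ F))
  let S : (δ : Ordinal.{0}) → ℕ → (Set.Iio δ → Z) → (ℕ → (ℕ →₀ F)) := fun δ i z =>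
    fam ι δ (fun a => (z a).2) i
  let Yc : (δ : Ordinal.{0}) → (Set.Iio δ → Z) → (ℕ → (ℕ →₀ F)) := fun δ z =>
    if h0 : 0 < δ then (z ⟨0, h0⟩).1 else 0
  let Pred : (δ : Ordinal.{0}) → ℕ → ℕ → (Set.Iio δ → Z) → Prop := fun δ n c z =>
    Valid (h δ) (fun i => Submodule.span F (Set.range (S δ i z))) n (dec c) ∧
      ∀ q ∈ dec c, q.2 ∈ Submodule.span F (Set.range (Yc δ z))
  let Φ : (δ : Ordinal.{0}) → (Set.Iio δ → Z) → (ℕ → ℕ) := fun δ z n =>
    sInf {c | Pred δ n c z}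
  have hSmeas : ∀ δ i, Measurable (S δ i) := by
    intro δ i
    change Measurable fun z : Set.Iio δ → Z => fam ι δ (fun a => (z a).2) i
    unfold fam
    by_cases h1 : i % 2 = 0
    · simp only [h1, if_true]; exact measurable_const
    · simp only [h1, if_false]
      by_cases h2 : ∃ a : Set.Iio δ, ι δ a = i / 2
      · simp only [h2, dite_true]
        exact measurable_snd.comp (measurable_pi_apply _)
      · simp only [h2, dite_false]
        exact measurable_const
  have hYmeas : ∀ δ, Measurable (Yc δ) := by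
    intro δ
    change Measurable fun z : Set.Iio δ → Z => if h0 : 0 < δ then (z ⟨0, h0⟩).1 else 0
    by_cases h0 : 0 < δ
    · simp only [h0, dite_true]
      exact measurable_fst.comp (measurable_pi_apply _)
    · simp only [h0, dite_false]
      exact measurable_const
  have hPmeas : ∀ δ n c, Measurable (Pred δ n c) := by
    intro δ n c
    refine Measurable.and (measurable_valid (h δ) (hSmeas δ) n (dec c)) ?_
    refine Measurable.forall fun q => Measurable.imp measurable_const ?_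
    exact measurable_mem_span (hYmeas δ) _
  have hΦmeas : ∀ δ < ω₁, Measurable (Φ δ) := by
    intro δ _
    exact measurable_pi_iff.2 fun n => measurable_sInf_nat fun c => hPmeas δ n c
  have hunc0 : #(ℕ → Bool) = 𝔠 := by simp
  have hunc : ¬ Countable Z := by
    intro hc
    have hinj : Function.Injective (fun u : ℕ → Bool =>
        ((fun n => Finsupp.single 0 (if u n then (1 : F) else 0), fun _ => 0) : Z)) := by
      intro u v huv
      funext n
      have h1 := congrFun (congrArg Prod.fst huv) n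
      have h2 := DFunLike.congr_fun h1 0
      simp only [Finsupp.single_eq_same] at h2
      cases hu : u n <;> cases hv : v n <;> simp_all
    have h3 : Countable (ℕ → Bool) := hinj.countable
    have := Cardinal.mk_le_aleph0_iff.2 h3
    rw [hunc0] at this
    exact absurd this (not_le.2 Cardinal.aleph0_lt_continuum)
  obtain ⟨g, hg⟩ := diamond_gen (Z := Z) hunc hD Φ hΦmeas
  -- recursion
  obtain ⟨x, hx⟩ := exists_wf_rec (ι := Ordinal.{0}) (α := ℕ → (ℕ →₀ F))
    (r := fun a b => a < b) Ordinal.lt_wf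
    (fun δ hist xδ =>
      (IsBlockSeq xδ ∨ xδ = 0) ∧
      (∀ i, AlmostDisj (Submodule.span F (Set.range xδ))
        (Submodule.span F (Set.range (fam ι δ (fun a => hist a.1 a.2) i)))) ∧
      ∀ Y : Submodule F (ℕ →₀ F), {n | Valid (h δ) (fun i => Submodule.span F
          (Set.range (fam ι δ (fun a => hist a.1 a.2) i))) n (dec (g δ n)) ∧
          ∀ q ∈ dec (g δ n), q.2 ∈ Y}.Infinite →
        ¬ AlmostDisj (Submodule.span F (Set.range xδ)) Y)
    (fun δ hist => key_lemma (hm δ) (hlt δ) _ (fun n => dec (g δ n)))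
  have hxn : ∀ δ < ω₁, ∀ n, AlmostDisj (Submodule.span F (Set.range (x δ)))
        (Submodule.span F (Set.range (baseSeq F n))) := by
    intro δ _ n
    have := (hx δ).2.1 (2 * n)
    rwa [fam_even] at this
  have hxα : ∀ δ < ω₁, ∀ α < δ, AlmostDisj (Submodule.span F (Set.range (x δ)))
        (Submodule.span F (Set.range (x α))) := by
    intro δ hδ α hα
    have := (hx δ).2.1 (2 * ι δ ⟨α, hα⟩ + 1)
    rwa [fam_odd ι δ (hι δ hδ)] at this
  refine ⟨x, fun δ _ => (hx δ).1, hxn, hxα, ?_⟩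
  intro y hy hyn hyx
  obtain ⟨α, hα, hαcap⟩ := hunb (speed y)
  obtain ⟨δ, hαδ, hδ, hinf⟩ := hg (fun β => (y, x β)) α hα
  have hpos : 0 < δ := lt_of_le_of_lt (zero_le) hαδ
  have hfam : ∀ i, AlmostDisj (Submodule.span F (Set.range y))
      (Submodule.span F (Set.range (fam ι δ (fun a => x a.1) i))) := by
    intro i
    rcases fam_cases ι δ (fun a => x a.1) i with ⟨n, hn⟩ | ⟨a, ha⟩ | h0
    · rw [hn]; exact hyn n
    · rw [ha]; exact hyx a.1 (lt_trans a.2 hδ)
    · rw [h0]; exact almostDisj_zero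
  have hYc : Yc δ (fun a : Set.Iio δ => ((y, x a.1) : Z)) = y := by
    simp only [Yc, hpos, dite_true]
  have hPred : ∀ n, Pred δ n (Φ δ (fun a : Set.Iio δ => ((y, x a.1) : Z)) n)
      (fun a : Set.Iio δ => ((y, x a.1) : Z)) := by
    intro n
    obtain ⟨A, hA1, hA2⟩ := exists_challenge (hlt δ) hy hfam (hαcap δ hαδ.le hδ) n
    obtain ⟨c, rfl⟩ := hdec A
    refine Nat.sInf_mem (s := {c | Pred δ n c (fun a : Set.Iio δ => ((y, x a.1) : Z))}) ⟨c, ?_⟩
    refine ⟨hA1, ?_⟩
    rw [hYc]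
    exact hA2
  have hnot := (hx δ).2.2 (Submodule.span F (Set.range y)) (by
    refine Set.Infinite.mono ?_ hinf
    intro n hn
    have h1 := hPred n
    have h2 : Φ δ (fun a : Set.Iio δ => ((y, x a.1) : Z)) n = g δ n := hn
    rw [h2] at h1
    refine ⟨h1.1, ?_⟩
    have h3 := h1.2
    rw [hYc] at h3
    exact h3)
  exact hnot (hyx δ hδ).symm

end Main

end Pool.Agent.BlockMad
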