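import Pool.Agent.Lib_MP_1dfcde_lc.Chal
import Pool.Agent.Lib_MP_1dfcde_lc.Diamond

open scoped Ordinal Cardinal

namespace Pool.Agent.BlockMad

theorem measurable_sInf_nat {α : Type*} [MeasurableSpace α] {P : ℕ → α → Prop}
    (hP : ∀ c, Measurable (P c)) : Measurable (fun z => sInf {c | P c z}) := by
  refine measurable_to_countable' fun k => ?_
  have h1 : (fun z => sInf {c | P c z}) ⁻¹' {k} =
      {z | (P k z ∧ ∀ c, c < k → ¬ P c z) ∨ (k = 0 ∧ ∀ c, ¬ P c z)} := by
    ext z
    simp only [Set.mem_preimage, Set.mem_singleton_iff]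
    change sInf {c | P c z} = k ↔ (P k z ∧ ∀ c, c < k → ¬ P c z) ∨ (k = 0 ∧ ∀ c, ¬ P c z)
    constructor
    · intro h
      by_cases hne : {c | P c z}.Nonempty
      · left
        rw [← h]
        exact ⟨Nat.sInf_mem hne, fun c hc => Nat.notMem_of_lt_sInf hc⟩
      · right
        rw [Set.not_nonempty_iff_eq_empty] at hne
        refine ⟨by rw [← h, hne]; simp, fun c hc => ?_⟩
        have : c ∈ {c | P c z} := hc
        rw [hne] at this
        exact this
    · rintro (⟨h1, h2⟩ | ⟨h1, h2⟩)
      · apply le_antisymm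
        · exact Nat.sInf_le h1
        · by_contra hcon
          have hne : {c | P c z}.Nonempty := ⟨k, h1⟩
          exact h2 _ (not_le.1 hcon) (Nat.sInf_mem hne)
      · have : {c | P c z} = ∅ := by
          rw [Set.eq_empty_iff_forall_notMem]
          exact h2
        rw [this, h1]
        simp
  rw [h1]
  refine measurableSet_setOfPred.2 ?_
  refine Measurable.or ?_ ?_
  · refine Measurable.and (hP k) (Measurable.forall fun c => ?_)
    exact Measurable.imp measurable_const (hP c).not
  · exact Measurable.and measurable_const (Measurable.forall fun c => (hP c).not)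

variable {F : Type} [Field F]

/-- discrete measurable structure on `E` -/
instance instMeasE : MeasurableSpace (ℕ →₀ F) := ⊤

instance : DiscreteMeasurableSpace (ℕ →₀ F) := ⟨fun _ => trivial⟩

theorem mem_span_sup_iff {x : ℕ → (ℕ →₀ F)} {U : Submodule F (ℕ →₀ F)} {v : ℕ →₀ F} :
    v ∈ Submodule.span F (Set.range x) ⊔ U ↔
      ∃ l : ℕ →₀ F, v - ∑ k ∈ l.support, l k • x k ∈ U := by
  rw [Submodule.mem_sup]
  constructor
  · rintro ⟨a, ha, b, hb, rfl⟩
    obtain ⟨l, rfl⟩ := (Finsupp.mem_span_range_iff_exists_finsupp).1 ha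
    refine ⟨l, ?_⟩
    have : (l.sum fun i a => a • x i) = ∑ k ∈ l.support, l k • x k := rfl
    rw [this, add_sub_cancel_left]
    exact hb
  · rintro ⟨l, hl⟩
    refine ⟨∑ k ∈ l.support, l k • x k, ?_, _, hl, by abel⟩
    exact Submodule.sum_mem _ fun k _ => Submodule.smul_mem _ _ (Submodule.subset_span ⟨k, rfl⟩)

theorem measurable_mem_span_sup [Countable F] {α : Type*} [MeasurableSpace α]
    {S : α → (ℕ → (ℕ →₀ F))}
    (hS : Measurable S) (U : Submodule F (ℕ →₀ F)) (v : ℕ →₀ F) :
    Measurable (fun z => v ∈ Submodule.span F (Set.range (S z)) ⊔ U) := by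
  simp only [mem_span_sup_iff]
  refine Measurable.exists fun l => ?_
  have h1 : Measurable (fun z => v - ∑ k ∈ l.support, l k • S z k) := by
    have h2 : Measurable (fun z => ∑ k ∈ l.support, l k • S z k) := by
      refine Finset.measurable_fun_sum _ fun k _ => ?_
      have h3 : Measurable (fun z => S z k) := (measurable_pi_apply k).comp hS
      exact (Measurable.of_discrete (f := fun w : ℕ →₀ F => l k • w)).comp h3
    exact (Measurable.of_discrete (f := fun w : ℕ →₀ F => v - w)).comp h2
  exact (Measurable.of_discrete (f := fun w : ℕ →₀ F => w ∈ U)).comp h1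

theorem measurable_mem_span [Countable F] {α : Type*} [MeasurableSpace α]
    {S : α → (ℕ → (ℕ →₀ F))}
    (hS : Measurable S) (v : ℕ →₀ F) :
    Measurable (fun z => v ∈ Submodule.span F (Set.range (S z))) := by
  have := measurable_mem_span_sup hS ⊥ v
  simpa using this

theorem measurable_valid [Countable F] {α : Type*} [MeasurableSpace α] (h : ℕ → ℕ)
    {S : ℕ → α → (ℕ → (ℕ →₀ F))} (hS : ∀ i, Measurable (S i)) (n : ℕ)
    (A : Finset (ℕ × (ℕ →₀ F))) :
    Measurable (fun z => Valid h (fun i => Submodule.span F (Set.range (S i z))) n A) := by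
  unfold Valid Good
  refine Measurable.and measurable_const (Measurable.and ?_ measurable_const)
  refine Measurable.forall fun q => Measurable.imp measurable_const ?_
  refine Measurable.and measurable_const (Measurable.and measurable_const ?_)
  refine Measurable.forall fun i => Measurable.imp measurable_const ?_
  exact (measurable_mem_span_sup (hS i) _ _).not

/-- an eventually dominating function -/
theorem exists_dominating (G : ℕ → ℕ → ℕ) : ∃ h : ℕ → ℕ, StrictMono h ∧ (∀ p, p < h p) ∧
    ∀ i n, i ≤ n → G i n ≤ h n := by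
  let h : ℕ → ℕ := fun n => ∑ m ∈ Finset.range (n + 1), (1 + ∑ i ∈ Finset.range (m + 1), G i m)
  have hs : ∀ n, h (n + 1) = h n + (1 + ∑ i ∈ Finset.range (n + 2), G i (n + 1)) := fun n =>
    Finset.sum_range_succ _ _
  have hm : StrictMono h := strictMono_nat_of_lt_succ fun n => by rw [hs]; omega
  refine ⟨h, hm, ?_, ?_⟩
  · intro p
    induction p with
    | zero => simp [h]
    | succ p ih => rw [hs]; omega
  · intro i n hin
    have h1 : G i n ≤ ∑ i ∈ Finset.range (n + 1), G i n :=
      Finset.single_le_sum (f := fun i => G i n) (fun _ _ => Nat.zero_le _)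
        (Finset.mem_range.2 (Nat.lt_succ_of_le hin))
    have h2 : (1 + ∑ i ∈ Finset.range (n + 1), G i n) ≤ h n :=
      Finset.single_le_sum (f := fun m => 1 + ∑ i ∈ Finset.range (m + 1), G i m)
        (fun _ _ => Nat.zero_le _) (Finset.mem_range.2 (Nat.lt_succ_self n))
    omega

end Pool.Agent.BlockMad
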